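import Mathlib
import Pool.Agent.H577R3.RM.Stmts

set_option autoImplicit false

/-! Fox derivatives of words: the step `TaskFOXW` for the random metabelian groups. -/

namespace Pool.Agent.H577R3.RM

open Pool.Agent.Helper777.Prof Pool.Agent.H577R3

namespace FOXW

theorem mag_m {ι M : Type} [Group M] [DecidableEq ι] (π : FreeGroup ι →* M) (g : FreeGroup ι) :
    (mag π g).m = π g := by
  let pr : Wr ℤ M ι →* M := { toFun := fun w => w.m, map_one' := Wr.one_m, map_mul' := Wr.mul_m }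
  have h : pr.comp (mag π) = π := by
    ext i
    simp [pr, mag]
  exact DFunLike.congr_fun h g

/-- the word without its last letter -/
def ini {n ℓ : ℕ} (w : Fin (ℓ + 1) → Lt n) : Fin ℓ → Lt n := fun i => w i.castSucc

theorem pos_ini {n ℓ : ℕ} (w : Fin (ℓ + 1) → Lt n) (j : ℕ) (hj : j ≤ ℓ) :
    pos w j = pos (ini w) j := by
  unfold pos
  rw [Fin.sum_univ_castSucc, if_neg (by simp; omega), add_zero]
  rfl

theorem pos_last {n ℓ : ℕ} (w : Fin (ℓ + 1) → Lt n) :
    pos w (ℓ + 1) = pos (ini w) ℓ + vec (w (Fin.last ℓ)) := by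
  unfold pos
  rw [Fin.sum_univ_castSucc, if_pos (by simp)]
  congr 1
  refine Finset.sum_congr rfl (fun i _ => ?_)
  rw [if_pos (by simp only [Fin.val_castSucc]; omega), if_pos i.2]
  rfl

theorem wd_last {n ℓ : ℕ} (w : Fin (ℓ + 1) → Lt n) :
    wd w = wd (ini w) * FreeGroup.mk [w (Fin.last ℓ)] := by
  unfold wd
  rw [FreeGroup.mul_mk, List.ofFn_succ_last]
  rfl

theorem fox_last {n ℓ : ℕ} (w : Fin (ℓ + 1) → Lt n) (l : Fin n) :
    fox w l = fox (ini w) l + if (w (Fin.last ℓ)).1 = l then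
      (if (w (Fin.last ℓ)).2 then X (pos (ini w) ℓ) else - X (pos w (ℓ + 1))) else 0 := by
  unfold fox
  rw [Fin.sum_univ_castSucc]
  congr 1
  · refine Finset.sum_congr rfl (fun i _ => ?_)
    rw [Fin.val_castSucc, pos_ini w i.1 (by omega), pos_ini w (i.1 + 1) (by omega)]
    rfl
  · rw [Fin.val_last, pos_ini w ℓ le_rfl]

theorem der_last {n ℓ : ℕ} {K : Type} [Field K] (θ : Fin n → Kˣ) (z : Fin n → K)
    (w : Fin (ℓ + 1) → Lt n) :
    der θ z w = der θ z (ini w) + (mon θ (Multiplicative.ofAdd (pos (ini w) ℓ)) : K) *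
    (if (w (Fin.last ℓ)).2 then z (w (Fin.last ℓ)).1 else
      -(((θ (w (Fin.last ℓ)).1)⁻¹ : Kˣ) : K) * z (w (Fin.last ℓ)).1) := by
  unfold der
  rw [Fin.sum_univ_castSucc]
  congr 1
  · refine Finset.sum_congr rfl (fun i _ => ?_)
    rw [Fin.val_castSucc, pos_ini w i.1 (by omega)]
    rfl
  · rw [Fin.val_last, pos_ini w ℓ le_rfl]

theorem evl_X {n : ℕ} {K : Type} [Field K] (θ : Fin n → Kˣ) (u : Fin n → ℤ) :
    evl θ (X u) = (mon θ (Multiplicative.ofAdd u) : K) := by
  unfold evl X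
  simp

theorem mon_add {n : ℕ} {K : Type} [Field K] (θ : Fin n → Kˣ) (u v : Fin n → ℤ) :
    mon θ (Multiplicative.ofAdd (u + v)) =
      mon θ (Multiplicative.ofAdd u) * mon θ (Multiplicative.ofAdd v) := by
  rw [ofAdd_add, map_mul]

theorem mon_single {n : ℕ} {K : Type} [Field K] (θ : Fin n → Kˣ) (i : Fin n) :
    mon θ (Multiplicative.ofAdd (Pi.single i 1)) = θ i := by
  change ∏ l, θ l ^ ((Pi.single i 1 : Fin n → ℤ) l) = θ i
  rw [Finset.prod_eq_single i]
  · simp
  · intro b _ hb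
    rw [Pi.single_eq_of_ne hb, zpow_zero]
  · intro h
    exact absurd (Finset.mem_univ i) h

theorem mon_vec_neg {n : ℕ} {K : Type} [Field K] (θ : Fin n → Kˣ) (a : Lt n) (h : a.2 = false) :
    mon θ (Multiplicative.ofAdd (vec a)) = (θ a.1)⁻¹ := by
  unfold vec
  rw [if_neg (by simp [h]), ofAdd_neg, map_inv, mon_single]

theorem abF_letter {n : ℕ} (a : Lt n) :
    abF n (FreeGroup.mk [a]) = Multiplicative.ofAdd (vec a) := by
  obtain ⟨i, b⟩ := a
  cases b
  · have h : (FreeGroup.mk [(i, false)] : FG n) = (FreeGroup.of i)⁻¹ := by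
      rw [FreeGroup.of, FreeGroup.inv_mk]
      rfl
    rw [h, map_inv]
    unfold abF vec
    rw [FreeGroup.lift_apply_of, if_neg (by simp), ofAdd_neg]
  · have h : (FreeGroup.mk [(i, true)] : FG n) = (FreeGroup.of i) := rfl
    rw [h]
    unfold abF vec
    rw [FreeGroup.lift_apply_of, if_pos rfl]

theorem mag_letter {n : ℕ} (a : Lt n) (l : Fin n) :
    (mag (abF n) (FreeGroup.mk [a])).v l =
      if a.1 = l then (if a.2 then 1 else - X (vec a)) else 0 := by
  obtain ⟨i, b⟩ := a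
  cases b
  · have h : (FreeGroup.mk [(i, false)] : FG n) = (FreeGroup.of i)⁻¹ := by
      rw [FreeGroup.of, FreeGroup.inv_mk]
      rfl
    have h2 : (mag (abF n) (FreeGroup.of i)) = ⟨Pi.single i 1, abF n (FreeGroup.of i)⟩ := by
      unfold mag
      rw [FreeGroup.lift_apply_of]
    have h3 : (abF n (FreeGroup.of i))⁻¹ = Multiplicative.ofAdd (vec ((i, false) : Lt n)) := by
      rw [← map_inv, ← h, abF_letter]
    rw [h, map_inv, Wr.inv_v, h2]
    simp only [Pi.neg_apply, Pi.smul_apply, smul_eq_mul]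
    rw [h3]
    by_cases hil : i = l
    · subst hil
      simp
    · rw [Pi.single_eq_of_ne (Ne.symm hil), if_neg hil, mul_zero, neg_zero]
  · have h : (FreeGroup.mk [(i, true)] : FG n) = (FreeGroup.of i) := rfl
    have h2 : (mag (abF n) (FreeGroup.of i)) = ⟨Pi.single i 1, abF n (FreeGroup.of i)⟩ := by
      unfold mag
      rw [FreeGroup.lift_apply_of]
    rw [h, h2]
    by_cases hil : i = l
    · subst hil
      simp
    · simp only [if_neg hil]
      rw [Pi.single_eq_of_ne (Ne.symm hil)]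

theorem X_add {n : ℕ} (u v : Fin n → ℤ) : (X (u + v) : Lam n) = X u * X v := by
  unfold X
  rw [ofAdd_add, map_mul]

theorem abF_wd {n : ℕ} : ∀ {ℓ : ℕ} (w : Fin ℓ → Lt n),
    abF n (wd w) = Multiplicative.ofAdd (pos w ℓ)
  | 0, w => by
    have h : wd w = 1 := by
      unfold wd
      rw [List.ofFn_zero]
      rfl
    rw [h, map_one]
    unfold pos
    simp
  | ℓ + 1, w => by
    rw [wd_last, map_mul, abF_wd (ini w), abF_letter, pos_last, ofAdd_add]

theorem foxF_wd {n : ℕ} : ∀ {ℓ : ℕ} (w : Fin ℓ → Lt n) (l : Fin n), foxF (wd w) l = fox w l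
  | 0, w, l => by
    have h : wd w = 1 := by
      unfold wd
      rw [List.ofFn_zero]
      rfl
    rw [h]
    unfold foxF fox
    rw [map_one, Wr.one_v]
    simp
  | ℓ + 1, w, l => by
    have ih : (mag (abF n) (wd (ini w))).v l = fox (ini w) l := foxF_wd (ini w) l
    unfold foxF
    rw [wd_last, map_mul, Wr.mul_v, Pi.add_apply, Pi.smul_apply, smul_eq_mul, mag_m, mag_letter,
      fox_last, ih, abF_wd, pos_last, X_add]
    congr 1
    split_ifs
    · rw [mul_one]
    · rw [mul_neg]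
    · rw [mul_zero]

theorem der_eq {n : ℕ} (K : Type) [Field K] (θ : Fin n → Kˣ) (z : Fin n → K) :
    ∀ {ℓ : ℕ} (w : Fin ℓ → Lt n), der θ z w = ∑ l, z l * evl θ (fox w l)
  | 0, w => by
    unfold der fox
    simp
  | ℓ + 1, w => by
    rw [der_last, der_eq K θ z (ini w)]
    simp only [fox_last, map_add, mul_add, Finset.sum_add_distrib]
    congr 1
    rw [Finset.sum_eq_single (w (Fin.last ℓ)).1]
    · rw [if_pos rfl]
      by_cases h : (w (Fin.last ℓ)).2 = true
      · rw [if_pos h, if_pos h, evl_X, mul_comm]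
      · have h' : (w (Fin.last ℓ)).2 = false := by simpa using h
        rw [if_neg h, if_neg h, map_neg, evl_X, pos_last, mon_add, mon_vec_neg θ _ h',
          Units.val_mul]
        ring
    · intro b _ hb
      rw [if_neg (Ne.symm hb), map_zero, mul_zero]
    · intro h
      exact absurd (Finset.mem_univ _) h

theorem abs_vec {n : ℕ} (a : Lt n) (l : Fin n) : |vec a l| ≤ 1 := by
  unfold vec
  split_ifs with h
  · by_cases hil : l = a.1
    · subst hil
      simp
    · rw [Pi.single_eq_of_ne hil]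
      simp
  · rw [Pi.neg_apply, abs_neg]
    by_cases hil : l = a.1
    · subst hil
      simp
    · rw [Pi.single_eq_of_ne hil]
      simp

theorem abs_pos {n : ℕ} : ∀ {ℓ : ℕ} (w : Fin ℓ → Lt n) (l : Fin n), |pos w ℓ l| ≤ ℓ
  | 0, w, l => by
    unfold pos
    simp
  | ℓ + 1, w, l => by
    rw [pos_last, Pi.add_apply]
    push_cast
    exact (abs_add_le _ _).trans (add_le_add (abs_pos (ini w) l) (abs_vec _ l))

end FOXW

theorem taskFOXW : TaskFOXW := fun _ _ w =>
  ⟨FOXW.foxF_wd w, FOXW.abF_wd w, fun K _ θ z => FOXW.der_eq K θ z w, FOXW.abs_pos w⟩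

end Pool.Agent.H577R3.RM
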